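import Pool.Agent.N566.CX.Stm

/-!
# CX3: expansions of the averages `Gf`
-/

set_option autoImplicit false

namespace Pool.Agent.N278.CX

open Filter Topology Metric MeasureTheory Set
open Pool.Agent.N207.VS
open Pool.Agent.N561 (LL)
open scoped Real

/-! ### Taylor's formula on a convex set -/

theorem taylor_seg (n : ℕ) : ∀ (f : ℂ → ℂ) (U : Set ℂ), IsOpen U → Convex ℝ U →
    DifferentiableOn ℂ f U → ∀ w ∈ U, ∀ z ∈ U, ∀ M : ℝ,
    (∀ x ∈ segment ℝ w z, ‖deriv^[n] f x‖ ≤ M) →
    ‖f z - ∑ k ∈ Finset.range n, deriv^[k] f w / (k.factorial : ℂ) * (z - w) ^ k‖ ≤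
      M * ‖z - w‖ ^ n := by
  induction n with
  | zero =>
    intro f U _ _ _ w _ z _ M hM
    simpa using hM z (right_mem_segment ℝ w z)
  | succ n ih =>
    intro f U hU hc hf w hw z hz M hM
    have hM0 : 0 ≤ M := (norm_nonneg _).trans (hM w (left_mem_segment ℝ w z))
    have hf' : DifferentiableOn ℂ (deriv f) U := hf.deriv hU
    have hseg : segment ℝ w z ⊆ U := hc.segment_subset hw hz
    set h : ℂ → ℂ := fun x => f x -
      ∑ k ∈ Finset.range (n + 1), deriv^[k] f w / (k.factorial : ℂ) * (x - w) ^ k with hh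
    have hd : ∀ x ∈ segment ℝ w z, HasDerivWithinAt h (deriv f x -
        ∑ k ∈ Finset.range n, deriv^[k] (deriv f) w / (k.factorial : ℂ) * (x - w) ^ k)
        (segment ℝ w z) x := by
      intro x hx
      have h1 : HasDerivAt f (deriv f x) x :=
        (hf.differentiableAt (hU.mem_nhds (hseg hx))).hasDerivAt
      have h2 : HasDerivAt (fun x : ℂ => ∑ k ∈ Finset.range (n + 1),
          deriv^[k] f w / (k.factorial : ℂ) * (x - w) ^ k)
          (∑ k ∈ Finset.range (n + 1),
            deriv^[k] f w / (k.factorial : ℂ) * ((k : ℂ) * (x - w) ^ (k - 1))) x := by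
        refine HasDerivAt.fun_sum fun k _ => ?_
        refine HasDerivAt.const_mul _ ?_
        have h3 := ((hasDerivAt_id' x).sub_const w).fun_pow k
        simpa using h3
      refine (h1.sub h2).hasDerivWithinAt.congr_deriv ?_
      congr 1
      rw [Finset.sum_range_succ']
      simp only [Nat.cast_zero, zero_mul, mul_zero, add_zero]
      refine Finset.sum_congr rfl fun k _ => ?_
      rw [Function.iterate_succ, Function.comp_apply, Nat.add_sub_cancel, Nat.factorial_succ]
      push_cast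
      have a1 : (k : ℂ) + 1 ≠ 0 := Nat.cast_add_one_ne_zero k
      have a2 : (k.factorial : ℂ) ≠ 0 := Nat.cast_ne_zero.2 (Nat.factorial_ne_zero k)
      field_simp
    have hb : ∀ x ∈ segment ℝ w z, ‖deriv f x -
        ∑ k ∈ Finset.range n, deriv^[k] (deriv f) w / (k.factorial : ℂ) * (x - w) ^ k‖ ≤
        M * ‖z - w‖ ^ n := by
      intro x hx
      have h1 := ih (deriv f) U hU hc hf' w hw x (hseg hx) M (fun y hy => by
        have := hM y ((convex_segment w z).segment_subset (left_mem_segment ℝ w z) hx hy)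
        rwa [Function.iterate_succ, Function.comp_apply] at this)
      refine h1.trans (mul_le_mul_of_nonneg_left (pow_le_pow_left₀ (norm_nonneg _) ?_ n) hM0)
      obtain ⟨a, b, ha, hb, hab, rfl⟩ := hx
      have e : a • w + b • z - w = b • (z - w) := by
        have : a = 1 - b := by linarith
        rw [this, smul_sub, sub_smul, one_smul]
        ring
      rw [e, norm_smul, Real.norm_eq_abs, abs_of_nonneg hb]
      nlinarith [norm_nonneg (z - w)]
    have key := (convex_segment w z).norm_image_sub_le_of_norm_hasDerivWithin_le hd hb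
      (left_mem_segment ℝ w z) (right_mem_segment ℝ w z)
    have h0 : h w = 0 := by
      rw [hh]
      simp only [sub_self]
      rw [Finset.sum_range_succ']
      simp
    rw [h0, sub_zero] at key
    refine key.trans (le_of_eq ?_)
    ring

/-! ### integrals -/

theorem sh_le (m : ℕ) (u : ℝ) : sh u * (1 + |u|) ^ m ≤
    4 * ((m + 2).factorial : ℝ) * Real.exp 1 * (1 + u ^ 2)⁻¹ := by
  have h0 := abs_nonneg u
  have h1 : Real.exp |u| / 2 ≤ Real.cosh u := by
    rw [Real.cosh_eq]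
    have h2 : Real.exp |u| ≤ Real.exp u + Real.exp (-u) := by
      rcases le_total 0 u with h | h
      · rw [abs_of_nonneg h]; linarith [Real.exp_pos (-u)]
      · rw [abs_of_nonpos h]; linarith [Real.exp_pos u]
    linarith
  have h2 : Real.exp (2 * |u|) / 4 ≤ Real.cosh u ^ 2 := by
    have h3 := pow_le_pow_left₀ (by positivity) h1 2
    refine le_trans (le_of_eq ?_) h3
    rw [two_mul, Real.exp_add]
    ring
  have h3 : (1 + |u|) ^ (m + 2) ≤ ((m + 2).factorial : ℝ) * Real.exp (1 + |u|) := by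
    have h4 := Real.pow_div_factorial_le_exp (x := 1 + |u|) (by positivity) (m + 2)
    have h5 : (0 : ℝ) < ((m + 2).factorial : ℝ) := by positivity
    rw [div_le_iff₀ h5] at h4
    linarith
  have h4 : Real.exp (1 + |u|) ≤ Real.exp 1 * Real.exp (2 * |u|) := by
    rw [← Real.exp_add]
    exact Real.exp_le_exp.2 (by linarith)
  have h5 : (1 + u ^ 2) ≤ (1 + |u|) ^ 2 := by
    rw [← sq_abs u]
    nlinarith
  have h6 := Real.cosh_pos u
  have h7 : 0 < 1 + u ^ 2 := by positivity
  have h8 : (0 : ℝ) ≤ ((m + 2).factorial : ℝ) := by positivity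
  have h9 : (1 + |u|) ^ m * (1 + u ^ 2) ≤
      4 * ((m + 2).factorial : ℝ) * Real.exp 1 * Real.cosh u ^ 2 := by
    calc (1 + |u|) ^ m * (1 + u ^ 2) ≤ (1 + |u|) ^ m * (1 + |u|) ^ 2 :=
          mul_le_mul_of_nonneg_left h5 (by positivity)
      _ = (1 + |u|) ^ (m + 2) := by ring
      _ ≤ ((m + 2).factorial : ℝ) * (Real.exp 1 * Real.exp (2 * |u|)) :=
          h3.trans (mul_le_mul_of_nonneg_left h4 h8)
      _ = ((m + 2).factorial : ℝ) * Real.exp 1 * 4 * (Real.exp (2 * |u|) / 4) := by ring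
      _ ≤ ((m + 2).factorial : ℝ) * Real.exp 1 * 4 * Real.cosh u ^ 2 :=
          mul_le_mul_of_nonneg_left h2 (by positivity)
      _ = _ := by ring
  unfold sh
  rw [div_mul_eq_mul_div, one_mul, div_le_iff₀ (by positivity), ← div_eq_mul_inv, div_mul_eq_mul_div,
    le_div_iff₀ h7]
  exact h9

theorem int_shm (m : ℕ) : Integrable (fun u : ℝ => sh u * (1 + |u|) ^ m) := by
  refine (integrable_inv_one_add_sq.const_mul
    (4 * ((m + 2).factorial : ℝ) * Real.exp 1)).mono' ?_ ?_
  · exact (sh_cont.mul (by fun_prop)).aestronglyMeasurable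
  · refine Eventually.of_forall fun u => ?_
    rw [Real.norm_eq_abs, abs_of_nonneg (mul_nonneg (sh_pos u).le (by positivity))]
    exact sh_le m u

theorem domm {f : ℝ → ℂ} (hf : Continuous f) (C : ℝ) (m : ℕ)
    (h : ∀ u, ‖f u‖ ≤ C * (1 + |u|) ^ m) :
    Integrable (fun u : ℝ => (sh u : ℂ) * f u) := by
  refine ((int_shm m).const_mul C).mono' ?_ ?_
  · exact ((Complex.continuous_ofReal.comp sh_cont).mul hf).aestronglyMeasurable
  · refine Eventually.of_forall fun u => ?_
    rw [norm_mul, Complex.norm_real, Real.norm_eq_abs, abs_of_pos (sh_pos u)]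
    have := mul_le_mul_of_nonneg_left (h u) (sh_pos u).le
    linarith

theorem norm_su (s u : ℝ) : ‖(s : ℂ) + u * Complex.I‖ ≤ (1 + |s|) * (1 + |u|) := by
  refine (norm_add_le _ _).trans ?_
  rw [norm_mul, Complex.norm_I, mul_one, Complex.norm_real, Complex.norm_real, Real.norm_eq_abs,
    Real.norm_eq_abs]
  nlinarith [abs_nonneg s, abs_nonneg u, mul_nonneg (abs_nonneg s) (abs_nonneg u)]

theorem int_mo (s : ℝ) (k : ℕ) :
    Integrable (fun u : ℝ => (sh u : ℂ) * ((s : ℂ) + u * Complex.I) ^ k) := by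
  refine domm (by fun_prop) ((1 + |s|) ^ k) k fun u => ?_
  rw [norm_pow, ← mul_pow]
  exact pow_le_pow_left₀ (norm_nonneg _) (norm_su s u) k

/-- the moments -/
noncomputable def mo (s : ℝ) (k : ℕ) : ℂ :=
  1 / 2 * ∫ u : ℝ, (sh u : ℂ) * ((s : ℂ) + u * Complex.I) ^ k

theorem mo_zero (s : ℝ) : mo s 0 = 1 := by
  unfold mo
  simp only [pow_zero, mul_one]
  rw [integral_shc]
  norm_num

/-! ### the strip -/

theorem convex_W : Convex ℝ W := by
  have : W = Complex.reCLM ⁻¹' (Set.Ioo (-(π / 2)) (π / 2)) := by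
    ext w
    simp [W, abs_lt]
  rw [this]
  exact (convex_Ioo _ _).linear_preimage Complex.reCLM.toLinearMap

theorem LL_diff : DifferentiableOn ℂ LL W :=
  fun _ hw => (LL_deriv hw).differentiableAt.differentiableWithinAt

theorem D_diff (k : ℕ) : DifferentiableOn ℂ (deriv^[k] LL) W :=
  ((LL_diff.analyticOnNhd isOpen_W).iterated_deriv k).differentiableOn

/-- Cauchy's estimate -/
theorem D_bound (n : ℕ) (c : ℝ) (hc : 0 < c) (hc2 : c ≤ π / 2) : ∃ C : ℝ, 0 < C ∧ ∀ w : ℂ,
    |w.re| ≤ π / 2 - 2 * c → ‖deriv^[n] LL w‖ ≤ C * (1 + |w.im|) ^ 2 := by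
  obtain ⟨C, hC, hb⟩ := LL_bound c hc hc2
  refine ⟨n.factorial * (C * (1 + c) ^ 2) / c ^ n, by positivity, fun w hw => ?_⟩
  have hball : ∀ x ∈ closedBall w c, |x.re| ≤ π / 2 - c ∧ |x.im| ≤ |w.im| + c := by
    intro x hx
    rw [mem_closedBall, dist_eq_norm] at hx
    have h1 := (Complex.abs_re_le_norm (x - w)).trans hx
    have h2 := (Complex.abs_im_le_norm (x - w)).trans hx
    rw [Complex.sub_re] at h1
    rw [Complex.sub_im] at h2
    have h3 := abs_add_le (x.re - w.re) w.re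
    have h4 := abs_add_le (x.im - w.im) w.im
    rw [sub_add_cancel] at h3 h4
    constructor <;> linarith
  have hballW : closedBall w c ⊆ W := fun x hx =>
    lt_of_le_of_lt (hball x hx).1 (by linarith)
  have h1 := Complex.norm_iteratedDeriv_le_of_forall_mem_sphere_norm_le (c := w) (R := c)
    (C := C * (1 + c) ^ 2 * (1 + |w.im|) ^ 2) (f := LL) n hc
    ((LL_diff.mono (closure_ball_subset_closedBall.trans hballW)).diffContOnCl) (by
      intro z hz
      have h2 := hball z (sphere_subset_closedBall hz)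
      refine (hb z h2.1).trans ?_
      rw [mul_assoc]
      refine mul_le_mul_of_nonneg_left ?_ hC.le
      rw [← mul_pow]
      refine pow_le_pow_left₀ (by positivity) ?_ 2
      nlinarith [h2.2, mul_nonneg hc.le (abs_nonneg w.im)])
  rw [iteratedDeriv_eq_iterate] at h1
  refine h1.trans (le_of_eq ?_)
  ring

theorem seg_bd (s a u : ℝ) (w x : ℂ) (ha : 0 ≤ a) (ha1 : a ≤ 1)
    (hx : x ∈ segment ℝ w (w + (a : ℂ) * ((s : ℂ) + u * Complex.I))) :
    |x.re| ≤ |w.re| + a * |s| ∧ |x.im| ≤ |w.im| + |u| := by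
  obtain ⟨p, q, hp, hq, hpq, rfl⟩ := hx
  have hp' : p = 1 - q := by linarith
  have e1 : (p • w + q • (w + (a : ℂ) * ((s : ℂ) + u * Complex.I))).re = w.re + q * (a * s) := by
    rw [hp']
    simp
    ring
  have e2 : (p • w + q • (w + (a : ℂ) * ((s : ℂ) + u * Complex.I))).im = w.im + q * (a * u) := by
    rw [hp']
    simp
    ring
  have hq1 : q ≤ 1 := by linarith
  rw [e1, e2]
  have b1 : |q * (a * s)| ≤ a * |s| := by
    rw [abs_mul, abs_mul, abs_of_nonneg hq, abs_of_nonneg ha]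
    have : 0 ≤ a * |s| := by positivity
    nlinarith
  have b2 : |q * (a * u)| ≤ |u| := by
    rw [abs_mul, abs_mul, abs_of_nonneg hq, abs_of_nonneg ha]
    have h1 : 0 ≤ |u| := abs_nonneg u
    have h2 : a * |u| ≤ |u| := by nlinarith
    have h3 : 0 ≤ a * |u| := by positivity
    nlinarith
  constructor
  · exact (abs_add_le _ _).trans (by linarith)
  · exact (abs_add_le _ _).trans (by linarith)

/-- the coefficients -/
noncomputable def AA (s : ℝ) (k : ℕ) (w : ℂ) : ℂ :=
  deriv^[k] LL w / (k.factorial : ℂ) * mo s k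

/-- CX3 -/
theorem gfx : Pool.Agent.N566.CX.S_GFX := by
  intro s
  refine ⟨AA s, ?_, ?_, ?_⟩
  · intro w _
    unfold AA
    rw [mo_zero]
    simp
  · intro k
    unfold AA
    exact ((D_diff k).div_const _).mul_const _
  intro K hKW hK n
  obtain ⟨c0, B, hc0, hc02, hB, hKb⟩ := cpt hK hKW
  have hpi := Real.pi_pos
  set c : ℝ := c0 / 3 with hc
  have hcp : 0 < c := by positivity
  have hc2 : c ≤ π / 2 := by rw [hc]; linarith
  obtain ⟨C, hC, hD⟩ := D_bound n c hcp hc2
  set I2 : ℝ := ∫ u : ℝ, sh u * (1 + |u|) ^ (2 + n) with hI2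
  set C1 : ℝ := C * (1 + B) ^ 2 * (1 + |s|) ^ n with hC1
  have hC10 : 0 ≤ C1 := by positivity
  refine ⟨1 / 2 * (C1 * I2), min 1 (c / (1 + |s|)), by positivity, ?_⟩
  intro a ha ha0 w hw
  have ha1 : a ≤ 1 := ha0.trans (min_le_left _ _)
  have has : a * |s| ≤ c := by
    have h1 : a ≤ c / (1 + |s|) := ha0.trans (min_le_right _ _)
    rw [le_div_iff₀ (by positivity)] at h1
    nlinarith [abs_nonneg s]
  obtain ⟨hw1, hw2⟩ := hKb w hw
  have hw1' : |w.re| ≤ π / 2 - 3 * c := by rw [hc]; linarith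
  have hwW : w ∈ W := hKW hw
  have hmem : ∀ u : ℝ, w + (a : ℂ) * ((s : ℂ) + u * Complex.I) ∈ W := by
    intro u
    have := (seg_bd s a u w _ ha ha1 (right_mem_segment ℝ w _)).1
    exact lt_of_le_of_lt this (by linarith)
  have hT : ∀ u : ℝ, ‖LL (w + (a : ℂ) * ((s : ℂ) + u * Complex.I)) -
      ∑ k ∈ Finset.range n, deriv^[k] LL w / (k.factorial : ℂ) *
        ((a : ℂ) * ((s : ℂ) + u * Complex.I)) ^ k‖ ≤ C1 * a ^ n * (1 + |u|) ^ (2 + n) := by
    intro u
    have h1 := taylor_seg n LL W isOpen_W convex_W LL_diff w hwW _ (hmem u)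
      (C * (1 + (B + |u|)) ^ 2) (by
        intro x hx
        obtain ⟨b1, b2⟩ := seg_bd s a u w x ha ha1 hx
        refine (hD x (by linarith)).trans ?_
        refine mul_le_mul_of_nonneg_left (pow_le_pow_left₀ (by positivity) (by linarith) 2) hC.le)
    rw [add_sub_cancel_left] at h1
    refine h1.trans ?_
    have h2 : ‖(a : ℂ) * ((s : ℂ) + u * Complex.I)‖ ≤ a * ((1 + |s|) * (1 + |u|)) := by
      rw [norm_mul, Complex.norm_real, Real.norm_eq_abs, abs_of_nonneg ha]
      exact mul_le_mul_of_nonneg_left (norm_su s u) ha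
    have h3 := pow_le_pow_left₀ (norm_nonneg _) h2 n
    have h4 : C * (1 + (B + |u|)) ^ 2 ≤ C * ((1 + B) * (1 + |u|)) ^ 2 := by
      refine mul_le_mul_of_nonneg_left (pow_le_pow_left₀ (by positivity) ?_ 2) hC.le
      nlinarith [mul_nonneg hB (abs_nonneg u)]
    calc _ ≤ C * ((1 + B) * (1 + |u|)) ^ 2 * (a * ((1 + |s|) * (1 + |u|))) ^ n :=
          mul_le_mul h4 h3 (by positivity) (by positivity)
      _ = C1 * a ^ n * (1 + |u|) ^ (2 + n) := by
          rw [hC1, mul_pow, mul_pow, mul_pow, pow_add]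
          ring
  have hcont : Continuous fun u : ℝ => LL (w + (a : ℂ) * ((s : ℂ) + u * Complex.I)) := by
    rw [← continuousOn_univ]
    exact LL_diff.continuousOn.comp
      (f := fun u : ℝ => w + (a : ℂ) * ((s : ℂ) + u * Complex.I)) (by fun_prop)
      (fun u _ => hmem u)
  have hint1 : Integrable fun u : ℝ => (sh u : ℂ) * (LL (w + (a : ℂ) * ((s : ℂ) + u * Complex.I)) -
      ∑ k ∈ Finset.range n, deriv^[k] LL w / (k.factorial : ℂ) *
        ((a : ℂ) * ((s : ℂ) + u * Complex.I)) ^ k) :=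
    domm (by fun_prop) _ _ hT
  have hterm : ∀ k ∈ Finset.range n, Integrable fun u : ℝ => (sh u : ℂ) *
      (deriv^[k] LL w / (k.factorial : ℂ) * ((a : ℂ) * ((s : ℂ) + u * Complex.I)) ^ k) := by
    intro k _
    have := (int_mo s k).const_mul (deriv^[k] LL w / (k.factorial : ℂ) * (a : ℂ) ^ k)
    refine this.congr (Eventually.of_forall fun u => ?_)
    simp only
    rw [mul_pow]
    ring
  have hsum : ∫ u : ℝ, ∑ k ∈ Finset.range n, (sh u : ℂ) *
      (deriv^[k] LL w / (k.factorial : ℂ) * ((a : ℂ) * ((s : ℂ) + u * Complex.I)) ^ k) =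
      2 * ∑ k ∈ Finset.range n, AA s k w * (a : ℂ) ^ k := by
    rw [integral_finsetSum _ hterm, Finset.mul_sum]
    refine Finset.sum_congr rfl fun k _ => ?_
    have e1 : (fun u : ℝ => (sh u : ℂ) *
        (deriv^[k] LL w / (k.factorial : ℂ) * ((a : ℂ) * ((s : ℂ) + u * Complex.I)) ^ k)) =
        fun u : ℝ => (deriv^[k] LL w / (k.factorial : ℂ) * (a : ℂ) ^ k) *
          ((sh u : ℂ) * ((s : ℂ) + u * Complex.I) ^ k) := by
      funext u
      rw [mul_pow]
      ring
    rw [e1, integral_const_mul]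
    unfold AA mo
    ring
  have e0 : Gf a (w + (s * a : ℝ)) - ∑ k ∈ Finset.range n, AA s k w * (a : ℂ) ^ k =
      1 / 2 * ∫ u : ℝ, (sh u : ℂ) * (LL (w + (a : ℂ) * ((s : ℂ) + u * Complex.I)) -
      ∑ k ∈ Finset.range n, deriv^[k] LL w / (k.factorial : ℂ) *
        ((a : ℂ) * ((s : ℂ) + u * Complex.I)) ^ k) := by
    have hint2 : Integrable fun u : ℝ => ∑ k ∈ Finset.range n, (sh u : ℂ) *
        (deriv^[k] LL w / (k.factorial : ℂ) * ((a : ℂ) * ((s : ℂ) + u * Complex.I)) ^ k) :=
      integrable_finsetSum _ hterm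
    have e1 : (fun u : ℝ => (sh u : ℂ) * (LL (w + (a : ℂ) * ((s : ℂ) + u * Complex.I)) -
        ∑ k ∈ Finset.range n, deriv^[k] LL w / (k.factorial : ℂ) *
          ((a : ℂ) * ((s : ℂ) + u * Complex.I)) ^ k)) =
        fun u : ℝ => (sh u : ℂ) * LL (w + (a : ℂ) * ((s : ℂ) + u * Complex.I)) -
          ∑ k ∈ Finset.range n, (sh u : ℂ) * (deriv^[k] LL w / (k.factorial : ℂ) *
            ((a : ℂ) * ((s : ℂ) + u * Complex.I)) ^ k) := by
      funext u
      rw [mul_sub, Finset.mul_sum]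
    have hint3 : Integrable fun u : ℝ =>
        (sh u : ℂ) * LL (w + (a : ℂ) * ((s : ℂ) + u * Complex.I)) := by
      have := hint1.add hint2
      refine this.congr (Eventually.of_forall fun u => ?_)
      simp only [Pi.add_apply]
      rw [mul_sub, Finset.mul_sum, sub_add_cancel]
    rw [e1, integral_sub hint3 hint2, hsum]
    unfold Gf
    have e2 : (fun u : ℝ => (sh u : ℂ) * LL (w + (s * a : ℝ) + (a * u : ℝ) * Complex.I)) =
        fun u : ℝ => (sh u : ℂ) * LL (w + (a : ℂ) * ((s : ℂ) + u * Complex.I)) := by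
      funext u
      congr 2
      push_cast
      ring
    rw [e2]
    ring
  rw [e0, norm_mul]
  have h12 : ‖(1 / 2 : ℂ)‖ = 1 / 2 := by norm_num
  rw [h12]
  have h2 : ‖∫ u : ℝ, (sh u : ℂ) * (LL (w + (a : ℂ) * ((s : ℂ) + u * Complex.I)) -
      ∑ k ∈ Finset.range n, deriv^[k] LL w / (k.factorial : ℂ) *
        ((a : ℂ) * ((s : ℂ) + u * Complex.I)) ^ k)‖ ≤
      ∫ u : ℝ, (C1 * a ^ n) * (sh u * (1 + |u|) ^ (2 + n)) := by
    refine norm_integral_le_of_norm_le ((int_shm _).const_mul _) (Eventually.of_forall fun u => ?_)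
    rw [norm_mul, Complex.norm_real, Real.norm_eq_abs, abs_of_pos (sh_pos u)]
    have := mul_le_mul_of_nonneg_left (hT u) (sh_pos u).le
    calc _ ≤ _ := this
      _ = _ := by ring
  rw [integral_const_mul, ← hI2] at h2
  calc _ ≤ 1 / 2 * (C1 * a ^ n * I2) := mul_le_mul_of_nonneg_left h2 (by norm_num)
    _ = _ := by ring

end Pool.Agent.N278.CX
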